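import Mathlib

set_option autoImplicit false

namespace Pool.Agent.Results.MP_417bbc_pr.Biased

open MeasureTheory ProbabilityTheory Filter Topology
open scoped ENNReal

/-- Sites of `ℤ²`. -/
abbrev V : Type := Fin 2 → ℤ

/-- Configurations `{0,1}^(ℤ²)` (`false = 0`, `true = 1`), product topology and sigma-algebra. -/
abbrev Cfg : Type := V → Bool

/-- The five-site neighbourhood. -/
def N : Finset V := {![0, 0], ![1, 0], ![-1, 0], ![0, 1], ![0, -1]}

/-- The nearest-neighbour majority automaton: `1` iff at least three of the five sites hold `1`. -/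
def F (x : Cfg) (i : V) : Bool := decide (3 ≤ ∑ u ∈ N, (x (i + u)).toNat)

/-- The transition kernel of the perturbation of `F` by the zero-range noise `θ`. -/
noncomputable def kernel (θ : Bool → PMF Bool) (x : Cfg) : Measure Cfg :=
  Measure.infinitePi fun i => (θ (F x i)).toMeasure

/-- `μ Φ_θ^t`. -/
noncomputable def evolve (θ : Bool → PMF Bool) (t : ℕ) (μ : Measure Cfg) : Measure Cfg :=
  (fun ν : Measure Cfg => ν.bind (kernel θ))^[t] μ

/-- `Φ_θ` has a unique invariant probability measure `π`, and `μ Φ_θ^t → π` weakly for every initial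
probability measure `μ`. -/
def IsErgodic (θ : Bool → PMF Bool) : Prop :=
  ∃ π : Measure Cfg, IsProbabilityMeasure π ∧ π.bind (kernel θ) = π ∧
    (∀ ν : Measure Cfg, IsProbabilityMeasure ν → ν.bind (kernel θ) = ν → ν = π) ∧
    ∀ μ : Measure Cfg, IsProbabilityMeasure μ → ∀ g : BoundedContinuousFunction Cfg ℝ,
      Tendsto (fun t => ∫ x, g x ∂(evolve θ t μ)) atTop (𝓝 (∫ x, g x ∂π))

abbrev St : Type := Bool × Bool
abbrev Pt : Type := ℕ × V

variable (θ : Bool → PMF Bool)

noncomputable def q : Measure St := (θ false).toMeasure.prod (θ true).toMeasure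
instance : IsProbabilityMeasure (q θ) := by unfold q; infer_instance

noncomputable def cs (ι : Type) : Measure (ι → St) := Measure.infinitePi fun _ => q θ
instance (ι : Type) : IsProbabilityMeasure (cs θ ι) := by unfold cs; infer_instance

lemma pair {ι α β : Type} {f : α → ι} {g : β → ι} (hf : Function.Injective f)
    (hg : Function.Injective g) (hfg : ∀ a b, f a ≠ g b) :
    (cs θ ι).map (fun x => (fun a => x (f a), fun b => x (g b))) = (cs θ α).prod (cs θ β) := by
  have hind : iIndep (fun i : ι => MeasurableSpace.comap (fun x : ι → St => x i) inferInstance) (cs θ ι) :=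
    (iIndepFun_iff_iIndep _ _ _).1 (iIndepFun_infinitePi (X := fun _ ω => ω) (by fun_prop))
  have h1 := indep_iSup_of_disjoint (fun i => (measurable_pi_apply i).comap_le) hind
    (S := Set.range f) (T := Set.range g) (by
      rw [Set.disjoint_left]; rintro _ ⟨a, rfl⟩ ⟨b, h⟩; exact hfg a b h.symm)
  have key : ∀ {γ : Type} (e : γ → ι), MeasurableSpace.comap (fun (x : ι → St) a => x (e a)) inferInstance ≤
      ⨆ i ∈ Set.range e, MeasurableSpace.comap (fun x : ι → St => x i) inferInstance := by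
    intro γ e
    refine Measurable.comap_le (@measurable_pi_lambda _ _ _ (_) _ _ fun a => ?_)
    exact Measurable.of_comap_le (le_iSup₂_of_le (e a) ⟨a, rfl⟩ le_rfl)
  have h2 : IndepFun (fun (x : ι → St) a => x (f a)) (fun (x : ι → St) b => x (g b)) (cs θ ι) :=
    (IndepFun_iff_Indep _ _ _).2 (indep_of_indep_of_le_right (indep_of_indep_of_le_left h1 (key f)) (key g))
  rw [h2.map_prod_eq_prod_map_map (Measurable.aemeasurable (by fun_prop))
    (Measurable.aemeasurable (by fun_prop))]
  unfold cs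
  rw [Measure.map_infinitePi_infinitePi_of_inj hf, Measure.map_infinitePi_infinitePi_of_inj hg]

def sh (T : ℕ) (ω : Pt → St) : Pt → St := fun p => ω (p.1 + T, p.2)

lemma meas_sh (T : ℕ) : Measurable (sh T) := by unfold sh; fun_prop

lemma pair_le {s T : ℕ} (h : s < T) (A : Set (V → St)) (B : Set (Pt → St)) :
    cs θ Pt {ω | (fun i => ω (s, i)) ∈ A ∧ sh T ω ∈ B} ≤ cs θ V A * cs θ Pt B := by
  have h := pair θ (ι := Pt) (f := fun i : V => (s, i)) (g := fun p : Pt => (p.1 + T, p.2))
    (fun a b h => by simpa using h) (fun a b h => by simpa [Prod.ext_iff] using h)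
    (fun a b h => by simp [Prod.ext_iff] at h; omega)
  rw [← Measure.prod_prod, ← h]
  exact Measure.le_map_apply (Measurable.aemeasurable (by fun_prop)) (A ×ˢ B)

def step (x : Cfg) (c : V → St) : Cfg := fun i => cond (F x i) (c i).2 (c i).1

lemma meas_step : Measurable fun z : Cfg × (V → St) => step z.1 z.2 := by
  refine measurable_pi_lambda _ fun w => ?_
  have h1 : Measurable fun q : ℕ × St => cond (decide (3 ≤ q.1)) q.2.2 q.2.1 := Measurable.of_discrete
  have h2 : Measurable fun z : Cfg × (V → St) => (∑ u ∈ N, (z.1 (w + u)).toNat, z.2 w) :=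
    (Finset.measurable_fun_sum _ fun u _ => (Measurable.of_discrete (f := Bool.toNat)).comp
      (by fun_prop)).prodMk (by fun_prop)
  exact h1.comp h2

lemma κ_eq (x : Cfg) : kernel θ x = (cs θ V).map (step x) := by
  unfold kernel cs
  refine Eq.trans ?_ (Measure.infinitePi_map_pi (fun _ : V => q θ)
    (f := fun i (c : St) => cond (F x i) c.2 c.1) fun _ => Measurable.of_discrete).symm
  congr 1
  funext i
  cases F x i
  exacts [(Measure.fst_prod (μ := (θ false).toMeasure) (ν := (θ true).toMeasure)).symm,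
    (Measure.snd_prod (μ := (θ false).toMeasure) (ν := (θ true).toMeasure)).symm]

lemma meas_κ : Measurable (kernel θ) := by
  rw [funext (κ_eq θ)]
  exact Measure.measurable_of_measurable_coe _ fun s hs => by
    simp_rw [fun x => Measure.map_apply (μ := cs θ V) (f := step x) (meas_step.comp measurable_prodMk_left) hs]
    exact measurable_measure_prodMk_left (meas_step hs)

def Y : ℕ → Cfg → (Pt → St) → Cfg
  | 0, x, _ => x
  | t + 1, x, ω => step (Y t x (sh 1 ω)) fun i => ω (0, i)

lemma meas_Y (t : ℕ) : Measurable fun z : Cfg × (Pt → St) => Y t z.1 z.2 := by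
  induction t with
  | zero => exact measurable_fst
  | succ t ih =>
    exact meas_step.comp (f := fun z : Cfg × (Pt → St) => (Y t z.1 (sh 1 z.2), fun i => z.2 (0, i)))
      ((ih.comp (measurable_fst.prodMk ((meas_sh 1).comp measurable_snd))).prodMk (by fun_prop))

lemma Y_add (s : ℕ) (x : Cfg) (t : ℕ) : ∀ ω, Y (s + t) x ω = Y t (Y s x (sh t ω)) ω := by
  induction t with
  | zero => intro ω; rfl
  | succ t ih =>
    intro ω
    rw [← add_assoc, Y, ih, Y]
    rfl

lemma bind_map {Z : (Pt → St) → Cfg} (hZ : Measurable Z) :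
    ((cs θ Pt).map Z).bind (kernel θ) = (cs θ Pt).map fun ω => step (Z (sh 1 ω)) fun i => ω (0, i) := by
  have m0 : Measurable fun z : (Pt → St) × (V → St) => step (Z z.1) z.2 :=
    meas_step.comp ((hZ.comp measurable_fst).prodMk measurable_snd)
  have h := pair θ (ι := Pt) (g := fun i : V => (0, i)) (f := fun p : Pt => (p.1 + 1, p.2))
    (fun a b h => by simpa [Prod.ext_iff] using h) (fun a b h => by simpa using h) (by simp)
  refine Measure.ext fun s hs => ?_
  rw [Measure.bind_apply hs (meas_κ θ).aemeasurable,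
    lintegral_map (f := fun a => kernel θ a s) ((Measure.measurable_coe hs).comp (meas_κ θ)) hZ]
  simp_rw [κ_eq, fun x => Measure.map_apply (μ := cs θ V) (f := step x)
    (meas_step.comp measurable_prodMk_left) hs]
  refine (Measure.prod_apply (m0 hs)).symm.trans ?_
  rw [← h, Measure.map_apply (by fun_prop) (m0 hs), Measure.map_apply _ hs]
  · rfl
  · exact m0.comp (f := fun ω : Pt → St => (sh 1 ω, fun i => ω (0, i))) ((meas_sh 1).prodMk (by fun_prop))

lemma meas_law (t : ℕ) : Measurable fun x => (cs θ Pt).map (Y t x) :=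
  Measure.measurable_of_measurable_coe _ fun s hs => by
    simp_rw [fun x => Measure.map_apply (μ := cs θ Pt) (f := Y t x)
      ((meas_Y t).comp measurable_prodMk_left) hs]
    exact measurable_measure_prodMk_left (meas_Y t hs)

lemma evolve_eq (μ : Measure Cfg) (t : ℕ) : evolve θ t μ = μ.bind fun x => (cs θ Pt).map (Y t x) := by
  induction t with
  | zero =>
    have : (fun x => (cs θ Pt).map (Y 0 x)) = Measure.dirac := by
      funext x; show (cs θ Pt).map (fun _ => x) = _; simp
    rw [this, Measure.bind_dirac]; rfl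
  | succ t ih =>
    rw [evolve, Function.iterate_succ_apply', ← evolve, ih,
      Measure.bind_bind (meas_law θ t).aemeasurable (meas_κ θ).aemeasurable]
    congr 1
    funext x
    exact bind_map θ ((meas_Y t).comp measurable_prodMk_left)

lemma evolve_eq' (μ : Measure Cfg) [IsProbabilityMeasure μ] (t : ℕ) :
    evolve θ t μ = (μ.prod (cs θ Pt)).map fun z => Y t z.1 z.2 := by
  refine Measure.ext fun s hs => ?_
  rw [evolve_eq, Measure.bind_apply hs (meas_law θ t).aemeasurable, Measure.map_apply (meas_Y t) hs,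
    Measure.prod_apply (meas_Y t hs)]
  exact lintegral_congr fun x => Measure.map_apply ((meas_Y t).comp measurable_prodMk_left) hs

def D (t : ℕ) (i : V) : Set (Pt → St) := {ω | ∃ x y, Y t x ω i ≠ Y t y ω i}

lemma ergodic (h : ∀ i, cs θ Pt (⋂ t, D t i) = 0) : IsErgodic θ := by
  classical
  set Z : (Pt → St) → Cfg := fun ω i => decide (∃ t₀, ∀ t, t₀ ≤ t → Y t (fun _ => false) ω i = true) with hZ
  have mZ : Measurable Z := measurable_pi_lambda _ fun i =>
    (Measurable.of_discrete (f := fun p : Prop => decide p)).comp (Measurable.exists fun t₀ =>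
      Measurable.forall fun t => measurable_const.imp ((Measurable.of_discrete (f := fun b : Bool => b = true)).comp
        ((measurable_pi_apply i).comp ((meas_Y t).comp measurable_prodMk_left))))
  have good : ∀ᵐ ω ∂(cs θ Pt), ∀ i, ∃ t₀, ∀ t, t₀ ≤ t → ∀ x, Y t x ω i = Z ω i := by
    refine ae_all_iff.2 fun i => ?_
    filter_upwards [measure_eq_zero_iff_ae_notMem.1 (h i)] with ω hω
    obtain ⟨t₀, h0⟩ := not_forall.1 (mt Set.mem_iInter.2 hω)
    simp only [D, Set.mem_setOf_eq, not_exists, not_not] at h0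
    have h1 : ∀ t, t₀ ≤ t → ∀ x, Y t x ω i = Y t₀ (fun _ => false) ω i := by
      intro t ht x
      obtain ⟨s, rfl⟩ : ∃ s, t = s + t₀ := ⟨t - t₀, by omega⟩
      rw [Y_add]; exact h0 _ _
    refine ⟨t₀, fun t ht x => ?_⟩
    rw [h1 t ht, hZ, Bool.eq_iff_iff, decide_eq_true_iff]
    exact ⟨fun h => ⟨t₀, fun s hs => (h1 s hs _).trans h⟩,
      fun ⟨s, hs⟩ => (h1 _ (le_max_left t₀ s) _).symm.trans (hs _ (le_max_right _ _))⟩
  have weak : ∀ μ : Measure Cfg, IsProbabilityMeasure μ → ∀ g : BoundedContinuousFunction Cfg ℝ,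
      Tendsto (fun t => ∫ x, g x ∂(evolve θ t μ)) atTop (𝓝 (∫ x, g x ∂((cs θ Pt).map Z))) := by
    intro μ _ g
    have e : (cs θ Pt).map Z = (μ.prod (cs θ Pt)).map fun z => Z z.2 := by
      rw [show (fun z : Cfg × (Pt → St) => Z z.2) = Z ∘ Prod.snd from rfl,
        ← Measure.map_map mZ measurable_snd]; simp
    simp_rw [evolve_eq', e, fun t => integral_map (μ := μ.prod (cs θ Pt)) (meas_Y t).aemeasurable
      g.continuous.aestronglyMeasurable]
    rw [integral_map (φ := fun z : Cfg × (Pt → St) => Z z.2) (mZ.comp measurable_snd).aemeasurable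
      g.continuous.aestronglyMeasurable]
    refine tendsto_integral_of_dominated_convergence (fun _ => ‖g‖)
      (fun t => (g.continuous.measurable.comp (meas_Y t)).aestronglyMeasurable) (integrable_const _)
      (fun t => Eventually.of_forall fun z => g.norm_coe_le_norm _) ?_
    filter_upwards [Measure.quasiMeasurePreserving_snd.ae good] with z hz
    refine (g.continuous.tendsto _).comp (tendsto_pi_nhds.2 fun i => ?_)
    obtain ⟨t₀, h⟩ := hz i
    exact tendsto_const_nhds.congr' (eventually_atTop.2 ⟨t₀, fun t ht => (h t ht _).symm⟩)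
  refine ⟨(cs θ Pt).map Z, Measure.isProbabilityMeasure_map mZ.aemeasurable, ?_, fun ν _ hν => ?_, weak⟩
  · rw [bind_map θ mZ]
    refine Measure.map_congr ?_
    have mp : MeasurePreserving (sh 1) (cs θ Pt) (cs θ Pt) := ⟨meas_sh 1,
      Measure.map_infinitePi_infinitePi_of_inj (f := fun p : Pt => (p.1 + 1, p.2))
        (fun a b h => by simpa [Prod.ext_iff] using h)⟩
    filter_upwards [good, mp.quasiMeasurePreserving.ae good] with ω h1 h2
    funext i
    choose t₁ h1 using h1
    choose t₂ h2 using h2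
    set t := t₁ i + N.sup fun u => t₂ (i + u) with ht
    rw [← h1 i (t + 1) (by omega) fun _ => false, Y]
    simp only [step, F]
    rw [Finset.sum_congr rfl fun u hu => ?_]
    rw [h2 (i + u) t (le_add_left (Finset.le_sup (f := fun u => t₂ (i + u)) hu))]
  · have := Measure.isProbabilityMeasure_map (μ := cs θ Pt) mZ.aemeasurable
    refine ext_of_forall_integral_eq_of_IsFiniteMeasure fun G => ?_
    have h1 := weak ν inferInstance G
    have h2 : ∀ t, evolve θ t ν = ν := fun t => Function.iterate_fixed hν t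
    simp only [h2] at h1
    exact tendsto_nhds_unique tendsto_const_nhds h1

noncomputable def box (T : ℕ) (i : V) : Finset V := Finset.Icc (i - fun _ => (T : ℤ)) (i + fun _ => (T : ℤ))

lemma card_box (T : ℕ) (i : V) : (box T i).card = (2 * T + 1) ^ 2 := by
  rw [box, Pi.card_Icc]
  have h2 : ∀ k, (Finset.Icc ((i - fun _ => (T : ℤ) : V) k) ((i + fun _ => (T : ℤ) : V) k)).card = 2 * T + 1 := by
    intro k; simp; omega
  simp only [h2, Finset.prod_const, Finset.card_univ, Fintype.card_fin]

lemma Y_dep (x y : Cfg) (T : ℕ) : ∀ ω i, (∀ j ∈ box T i, x j = y j) → Y T x ω i = Y T y ω i := by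
  induction T with
  | zero => intro ω i h; exact h i (by simp [box, Pi.le_def])
  | succ T ih =>
    intro ω i h
    simp only [Y, step, F]
    rw [Finset.sum_congr rfl fun u hu => ?_]
    rw [ih _ (i + u) fun j hj => h j ?_]
    simp only [box, N, Finset.mem_Icc, Pi.le_def, Fin.forall_fin_two, Pi.sub_apply, Pi.add_apply,
      Finset.mem_insert, Finset.mem_singleton] at hu hj ⊢
    rcases hu with rfl | rfl | rfl | rfl | rfl <;> simp at hj <;> push_cast <;> omega

noncomputable def blk (i : V) : Finset V := Finset.Icc i (i + fun _ => 1)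

lemma card_blk (i : V) : (blk i).card = 4 := by
  rw [blk, Pi.card_Icc]
  have h2 : ∀ k, (Finset.Icc (i k) ((i + fun _ => (1 : ℤ) : V) k)).card = 2 := by
    intro k; simp; omega
  simp only [h2, Finset.prod_const, Finset.card_univ, Fintype.card_fin]
  rfl

lemma F_blk {x : Cfg} {i : V} (h : ∀ b ∈ blk i, x b = true) : ∀ b ∈ blk i, F x b = true := by
  intro b hb
  have e : ∀ u : V, (i 0 ≤ b 0 + u 0 ∧ i 1 ≤ b 1 + u 1) ∧ b 0 + u 0 ≤ i 0 + 1 ∧ b 1 + u 1 ≤ i 1 + 1 →
      (x (b + u)).toNat = 1 := fun u hu => by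
    rw [h (b + u) (by simpa [blk, Pi.le_def] using hu)]; rfl
  have e1 := e ![0, 0]
  have e2 := e ![1, 0]
  have e3 := e ![-1, 0]
  have e4 := e ![0, 1]
  have e5 := e ![0, -1]
  simp only [blk, Finset.mem_Icc, Pi.le_def, Fin.forall_fin_two, Pi.add_apply] at hb
  rw [F, decide_eq_true_iff, N, Finset.sum_insert (by decide), Finset.sum_insert (by decide),
    Finset.sum_insert (by decide), Finset.sum_insert (by decide), Finset.sum_singleton]
  simp only [Matrix.cons_val_zero, Matrix.cons_val_one] at e1 e2 e3 e4 e5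
  omega

lemma forced (x : Cfg) (i : V) (T : ℕ) : ∀ ω : Pt → St, (∀ s < T, ∀ b ∈ blk i, (ω (s, b)).2 = true) →
    (∃ s < T, ∀ b ∈ blk i, (ω (s, b)).1 = true) → ∀ b ∈ blk i, Y T x ω b = true := by
  induction T with
  | zero => rintro ω - ⟨s, hs, -⟩; omega
  | succ T ih =>
    rintro ω h1 ⟨s, hs, h2⟩ b hb
    have h3 := h1 0 (by omega) b hb
    simp only [Y, step]
    cases s with
    | zero => rw [h3, h2 b hb]; simp
    | succ s =>
      rw [F_blk (ih (sh 1 ω) (fun r hr => h1 (r + 1) (by omega)) ⟨s, by omega, h2⟩) b hb]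
      exact h3

lemma cs_pi (S : Finset V) (A : Set St) : cs θ V {c | ∀ b ∈ S, c b ∈ A} = q θ A ^ S.card := by
  have := Measure.infinitePi_pi (fun _ : V => q θ) (s := S) (t := fun _ => A)
    fun _ _ => MeasurableSet.of_discrete
  rw [Finset.prod_const] at this
  exact this

lemma none_forced (i : V) (B : Set (Pt → St)) (T : ℕ) :
    cs θ Pt {ω | (∀ s < T, ¬ ∀ b ∈ blk i, (ω (s, b)).1 = true) ∧ sh T ω ∈ B} ≤
      (1 - θ false true ^ 4) ^ T * cs θ Pt B := by
  induction T with
  | zero => simp; rfl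
  | succ T ih =>
    have h1 := pair_le θ (show 0 < 1 by omega) {c | ∀ b ∈ blk i, c b ∈ {true} ×ˢ Set.univ}ᶜ
      {ω | (∀ s < T, ¬ ∀ b ∈ blk i, (ω (s, b)).1 = true) ∧ sh T ω ∈ B}
    rw [prob_compl_eq_one_sub, cs_pi, card_blk, q, Measure.prod_prod, measure_univ, mul_one,
      PMF.toMeasure_apply_singleton _ _ (measurableSet_singleton _)] at h1
    · rw [pow_succ', mul_assoc]
      refine (measure_mono fun ω hω => ?_).trans (h1.trans (mul_le_mul_right ih _))
      refine ⟨by simpa using hω.1 0 (by omega), fun s hs => hω.1 (s + 1) (by omega), ?_⟩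
      have : sh T (sh 1 ω) = sh (T + 1) ω := by funext p; simp [sh, add_assoc]
      rw [this]; exact hω.2
    · exact MeasurableSet.pi (blk i).countable_toSet fun _ _ => MeasurableSet.of_discrete

lemma contract (T t : ℕ) {r : ℝ≥0∞} (h : ∀ j, cs θ Pt (D t j) ≤ r) (i : V) :
    cs θ Pt (D (t + T) i) ≤ (2 * T + 1) ^ 2 * ((1 - θ false true ^ 4) ^ T + T * (4 * θ true false)) * r := by
  have h1 : D (t + T) i ⊆ ⋃ j ∈ box T i,
      ({ω | (∀ s < T, ¬ ∀ b ∈ blk i, (ω (s, b)).1 = true) ∧ sh T ω ∈ D t j} ∪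
        ⋃ s ∈ Finset.range T, ⋃ b ∈ blk i,
          {ω | (fun i => ω (s, i)) ∈ {c : V → St | ∀ k ∈ ({b} : Finset V), c k ∈ Set.univ ×ˢ {false}} ∧
            sh T ω ∈ D t j}) := by
    rintro ω ⟨x, y, hω⟩
    rw [Y_add, Y_add] at hω
    obtain ⟨j, hj⟩ := not_forall.1 (mt (Y_dep _ _ T ω i) hω)
    rw [Classical.not_imp] at hj
    have h2 : sh T ω ∈ D t j := ⟨x, y, hj.2⟩
    refine Set.mem_iUnion₂.2 ⟨j, hj.1, ?_⟩
    by_contra h3
    simp [h2] at h3
    have hi : i ∈ blk i := by simp [blk, Pi.le_def]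
    obtain ⟨⟨s, h4, h5⟩, h6⟩ := h3
    exact hω ((forced _ i T ω h6 ⟨s, h4, h5⟩ i hi).trans (forced _ i T ω h6 ⟨s, h4, h5⟩ i hi).symm)
  refine (measure_mono h1).trans ((measure_biUnion_finset_le _ _).trans ((Finset.sum_le_card_nsmul _ _
    (((1 - θ false true ^ 4) ^ T + T * (4 * θ true false)) * r) fun j _ => ?_).trans (le_of_eq ?_)))
  · rw [add_mul]
    refine (measure_union_le _ _).trans (add_le_add ((none_forced θ i _ T).trans
      (mul_le_mul_right (h j) _)) ((measure_biUnion_finset_le _ _).trans ((Finset.sum_le_card_nsmul _ _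
        (4 * θ true false * r) fun s hs => ?_).trans (le_of_eq ?_))))
    · refine (measure_biUnion_finset_le _ _).trans ((Finset.sum_le_card_nsmul _ _
        (θ true false * r) fun b _ => ?_).trans (le_of_eq ?_))
      · refine (pair_le θ (Finset.mem_range.1 hs) _ _).trans ?_
        rw [cs_pi, q, Measure.prod_prod, measure_univ, one_mul, Finset.card_singleton, pow_one,
          PMF.toMeasure_apply_singleton _ _ (measurableSet_singleton _)]
        exact mul_le_mul_right (h j) _
      · rw [card_blk]; simp [mul_assoc]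
    · simp [mul_assoc]
  · rw [card_box]; simp [mul_assoc]

lemma ergodic' (T : ℕ)
    (h : (2 * T + 1) ^ 2 * ((1 - θ false true ^ 4) ^ T + T * (4 * θ true false)) < 1) : IsErgodic θ := by
  refine ergodic θ fun i => le_antisymm ?_ zero_le
  have h1 : ∀ k i, cs θ Pt (D (k * T) i) ≤
      ((2 * T + 1) ^ 2 * ((1 - θ false true ^ 4) ^ T + T * (4 * θ true false))) ^ k := by
    intro k
    induction k with
    | zero => intro i; simpa using prob_le_one
    | succ k ih => intro i; rw [add_mul, one_mul, pow_succ' _ k]; exact contract θ T _ ih i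
  exact ge_of_tendsto' (ENNReal.tendsto_pow_atTop_nhds_zero_of_lt_one h) fun k =>
    (measure_mono (Set.iInter_subset _ _)).trans (h1 k i)

lemma main (ε : ℝ) (hε : 0 < ε) : ∃ δ : ℝ, 0 < δ ∧ ∀ θ : Bool → PMF Bool,
    ε ≤ (θ false true).toReal → (θ true false).toReal ≤ δ → IsErgodic θ := by
  wlog h1 : ε < 1 generalizing ε
  · obtain ⟨δ, h2, h3⟩ := this (1 / 2) (by norm_num) (by norm_num)
    exact ⟨δ, h2, fun θ a b => h3 θ (by linarith) b⟩
  have a0 : 0 < ε ^ 4 := by positivity
  have a1 : ε ^ 4 < 1 := pow_lt_one₀ hε.le h1 (by norm_num)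
  have a2 := (tendsto_pow_const_mul_const_pow_of_abs_lt_one 2 (r := 1 - ε ^ 4)
    (by rw [abs_lt]; constructor <;> linarith)).eventually (gt_mem_nhds (show (0 : ℝ) < 1 / 18 by norm_num))
  obtain ⟨T, h2, h3⟩ := (a2.and (eventually_ge_atTop 1)).exists
  have h4 : (1 : ℝ) ≤ T := by exact_mod_cast h3
  refine ⟨1 / (72 * T ^ 3), by positivity, fun θ b1 b2 => ergodic' θ T ?_⟩
  have c1 : 1 - θ false true ^ 4 ≤ ENNReal.ofReal (1 - ε ^ 4) := by
    rw [ENNReal.ofReal_sub _ a0.le, ENNReal.ofReal_one, ENNReal.ofReal_pow hε.le]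
    gcongr
    exact (ENNReal.ofReal_le_iff_le_toReal (PMF.apply_ne_top _ _)).2 b1
  have c2 : θ true false ≤ ENNReal.ofReal (1 / (72 * T ^ 3)) :=
    (ENNReal.le_ofReal_iff_toReal_le (PMF.apply_ne_top _ _) (by positivity)).2 b2
  have c3 : 0 ≤ (1 - ε ^ 4) ^ T := pow_nonneg (by linarith) _
  calc _ ≤ (2 * T + 1) ^ 2 * (ENNReal.ofReal (1 - ε ^ 4) ^ T + T * (4 * ENNReal.ofReal (1 / (72 * T ^ 3)))) := by
        gcongr
    _ = ENNReal.ofReal ((2 * T + 1) ^ 2 * ((1 - ε ^ 4) ^ T + T * (4 * (1 / (72 * T ^ 3))))) := by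
        rw [ENNReal.ofReal_mul (by positivity), ENNReal.ofReal_add c3 (by positivity),
          ENNReal.ofReal_mul (by positivity), ENNReal.ofReal_mul (by positivity),
          ENNReal.ofReal_pow (by positivity), ENNReal.ofReal_pow (by linarith),
          ENNReal.ofReal_add (by positivity) (by positivity), ENNReal.ofReal_mul (by positivity)]
        simp
    _ < 1 := by
        rw [ENNReal.ofReal_lt_one]
        have d1 : (T : ℝ) * (4 * (1 / (72 * T ^ 3))) = 1 / (18 * T ^ 2) := by field_simp; norm_num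
        have d2 : (2 * T + 1 : ℝ) ^ 2 ≤ 9 * T ^ 2 := by nlinarith
        have d3 : (9 * T ^ 2 : ℝ) * (1 / (18 * T ^ 2)) = 1 / 2 := by field_simp; norm_num
        rw [d1]
        calc _ ≤ 9 * T ^ 2 * ((1 - ε ^ 4) ^ T + 1 / (18 * T ^ 2)) := by gcongr
          _ < 1 := by rw [mul_add, d3]; linarith

noncomputable def flip (a : Bool) (p : ℝ) (h : p ≤ 1) : PMF Bool :=
  PMF.ofFintype (fun b => if b = a then 1 - ENNReal.ofReal p else ENNReal.ofReal p) (by
    have : ENNReal.ofReal p ≤ 1 := ENNReal.ofReal_le_one.2 h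
    cases a <;> simp [this, tsub_add_cancel_of_le])

/-- For every `ε > 0` there is `δ > 0` such that every zero-range noise with `θ(0,1) ≥ ε` and
`θ(1,0) ≤ δ` makes the majority automaton ergodic; hence for every `ε₀ > 0` some positive noise of
error level at most `ε₀` gives an ergodic perturbation. -/
theorem result :
    (∀ ε : ℝ, 0 < ε → ∃ δ : ℝ, 0 < δ ∧ ∀ θ : Bool → PMF Bool,
      ε ≤ (θ false true).toReal → (θ true false).toReal ≤ δ → IsErgodic θ) ∧
    ∀ ε₀ : ℝ, 0 < ε₀ → ∃ θ : Bool → PMF Bool, (∀ a b, 0 < θ a b) ∧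
      (∀ a, 1 - (θ a a).toReal ≤ ε₀) ∧ IsErgodic θ := by
  refine ⟨main, fun ε₀ h0 => ?_⟩
  set ε := min ε₀ (1 / 2) with hε
  have e0 : 0 < ε := lt_min h0 (by norm_num)
  have e1 : ε ≤ 1 / 2 := min_le_right _ _
  obtain ⟨δ, h1, h2⟩ := main ε e0
  set p : Bool → ℝ := fun a => cond a (min δ ε) ε with hp
  have p0 : ∀ a, 0 < p a ∧ p a ≤ ε := by
    rintro (_ | _)
    exacts [⟨e0, le_rfl⟩, ⟨lt_min h1 e0, min_le_right _ _⟩]
  refine ⟨fun a => flip a (p a) (by linarith [(p0 a).2]), fun a b => ?_, fun a => ?_, h2 _ ?_ ?_⟩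
  · simp only [flip, PMF.ofFintype_apply]
    split_ifs
    · rw [tsub_pos_iff_lt, ENNReal.ofReal_lt_one]; linarith [(p0 a).2]
    · exact ENNReal.ofReal_pos.2 (p0 a).1
  · simp only [flip, PMF.ofFintype_apply, if_true]
    rw [ENNReal.toReal_sub_of_le (ENNReal.ofReal_le_one.2 (by linarith [(p0 a).2])) (by simp),
      ENNReal.toReal_ofReal (p0 a).1.le]
    simpa using (p0 a).2.trans (min_le_left _ _)
  · simp [flip, hp, e0.le]
  · show (ENNReal.ofReal (p true)).toReal ≤ δ
    rw [ENNReal.toReal_ofReal (p0 true).1.le]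
    exact min_le_left _ _

end Pool.Agent.Results.MP_417bbc_pr.Biased
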